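import Mathlib

/-!
# A cNTV spacetime on `ℝ × T²`
-/

set_option autoImplicit false

open Set
open scoped ContDiff

namespace Pool.Agent.Q170.After2

/-- The value at tangent vectors `u`, `v` in a point with first coordinate `t` of the metric
`2 dt dx - t² dx² + (dy - √2 dx)²` in the coordinates `(t, x, y)`. -/
noncomputable def G (t : ℝ) (u v : ℝ × ℝ × ℝ) : ℝ :=
  u.1 * v.2.1 + u.2.1 * v.1 - t ^ 2 * (u.2.1 * v.2.1) +
    (u.2.2 - √2 * u.2.1) * (v.2.2 - √2 * v.2.1)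

/-- The timelike vector field `((t² - 1) / 2, 1, √2)`, which gives the time orientation. -/
noncomputable def T (t : ℝ) : ℝ × ℝ × ℝ := ((t ^ 2 - 1) / 2, 1, √2)

/-- Future-directed causal tangent vectors. -/
def Future (t : ℝ) (v : ℝ × ℝ × ℝ) : Prop := v ≠ 0 ∧ G t v v ≤ 0 ∧ G t v (T t) < 0

/-- The manifold `ℝ × T²`, `T² = (ℝ/ℤ)²`. -/
abbrev M := ℝ × AddCircle (1 : ℝ) × AddCircle (1 : ℝ)

/-- The universal covering. -/
def proj (p : ℝ × ℝ × ℝ) : M := (p.1, (p.2.1 : AddCircle (1 : ℝ)), (p.2.2 : AddCircle (1 : ℝ)))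

/-- A smooth causal curve runs from `p` to `q` (curves in `M` are given by their lifts to the
universal covering). -/
def Step (p q : M) : Prop := ∃ γ : ℝ → ℝ × ℝ × ℝ, ContDiff ℝ ∞ γ ∧ proj (γ 0) = p ∧
  proj (γ 1) = q ∧ ∀ s ∈ Icc (0 : ℝ) 1, Future (γ s).1 (deriv γ s)

/-- The after relation: a piecewise smooth causal curve runs from `p` to `q`. -/
def After : M → M → Prop := Relation.TransGen Step

section modal

variable {W : Type*} (R : W → W → Prop)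

/-- The modal operator `◇`. -/
def Dia (φ : W → Prop) (x : W) : Prop := ∃ y, R x y ∧ φ y

/-- The modal operator `□`. -/
def Box (φ : W → Prop) (x : W) : Prop := ¬ Dia R (fun y => ¬ φ y) x

/-- The formula `β_i` with `p = p_i`, `p' = p_j`. -/
def Beta (p p' : W → Prop) (x : W) : Prop := p x ∧ ¬ p' x ∧ Box R (fun y => ¬ p' y) x

/-- The formula `γ_i` with `p = p_i`. -/
def Gam (p q : W → Prop) (x : W) : Prop := Dia R (fun y => Dia R p y ∧ Dia R q y) x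

/-- Validity of the after-2 formula on the frame `(W, R)`. -/
def AfterTwoValid : Prop := ∀ (p₁ p₂ q : W → Prop) (x : W),
  Dia R (Beta R p₁ p₂) x ∧ Dia R (Beta R p₂ p₁) x ∧ Dia R q x →
    Gam R p₁ q x ∨ Gam R p₂ q x

end modal

theorem G_self (t : ℝ) (v : ℝ × ℝ × ℝ) :
    G t v v = 2 * v.1 * v.2.1 - t ^ 2 * v.2.1 ^ 2 + (v.2.2 - √2 * v.2.1) ^ 2 := by
  unfold G; ring

theorem G_T (t : ℝ) (v : ℝ × ℝ × ℝ) : G t v (T t) = v.1 - v.2.1 * (t ^ 2 + 1) / 2 := by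
  unfold G T
  simp only
  ring

/-- `G t` has signature `(-, +, +)`, and `T t` is timelike. -/
theorem lorentz (t : ℝ) : ∃ e₁ e₂ : ℝ × ℝ × ℝ, G t (T t) (T t) = -1 ∧ G t e₁ e₁ = 1 ∧
    G t e₂ e₂ = 1 ∧ G t (T t) e₁ = 0 ∧ G t (T t) e₂ = 0 ∧ G t e₁ e₂ = 0 := by
  refine ⟨((t ^ 2 + 1) / 2, 1, √2), (0, 0, 1), ?_, ?_, ?_, ?_, ?_, ?_⟩ <;>
  · unfold G
    simp only [T]
    ring

theorem future_nonneg {t : ℝ} {v : ℝ × ℝ × ℝ} (h : Future t v) : 0 ≤ v.2.1 := by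
  obtain ⟨-, h1, h2⟩ := h
  rw [G_self] at h1
  rw [G_T] at h2
  by_contra hcon
  push Not at hcon
  -- `v.1 < v.2.1 (t²+1)/2`, so `2 v.1 v.2.1 > v.2.1² (t²+1)`
  have h3 : v.2.1 * (v.2.1 * (t ^ 2 + 1) / 2) < v.2.1 * v.1 :=
    mul_lt_mul_of_neg_left (by linarith) hcon
  have h4 : 0 < v.2.1 ^ 2 := sq_pos_of_neg hcon
  nlinarith [sq_nonneg (v.2.2 - √2 * v.2.1), sq_nonneg t]

theorem future_le {t : ℝ} {v : ℝ × ℝ × ℝ} (h : Future t v) : v.1 ≤ t ^ 2 * v.2.1 / 2 := by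
  have h0 := future_nonneg h
  obtain ⟨-, h1, h2⟩ := h
  rw [G_self] at h1
  rw [G_T] at h2
  rcases h0.eq_or_lt with h0 | h0
  · rw [← h0] at h2 ⊢
    linarith
  · by_contra hcon
    push Not at hcon
    have h3 : v.2.1 * (t ^ 2 * v.2.1 / 2) < v.2.1 * v.1 := mul_lt_mul_of_pos_left hcon h0
    nlinarith [sq_nonneg (v.2.2 - √2 * v.2.1)]

theorem future_zero {v : ℝ × ℝ × ℝ} (h : Future 0 v) (hv : v.1 = 0) :
    0 < v.2.1 ∧ v.2.2 = √2 * v.2.1 := by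
  obtain ⟨-, h1, h2⟩ := h
  rw [G_self, hv] at h1
  rw [G_T, hv] at h2
  constructor
  · nlinarith
  · have h3 : (v.2.2 - √2 * v.2.1) ^ 2 = 0 := by
      apply le_antisymm _ (sq_nonneg _)
      nlinarith
    have := pow_eq_zero_iff (two_ne_zero) |>.1 h3
    linarith

end Pool.Agent.Q170.After2
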