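import Pool.Agent.Q170.After2.Defs

/-!
# The after relation on `ℝ × T²`
-/

set_option autoImplicit false

open Set
open scoped ContDiff

namespace Pool.Agent.Q170.After2

/-! ### Straight curves -/

theorem step_line (p v : ℝ × ℝ × ℝ)
    (h : ∀ s ∈ Icc (0 : ℝ) 1, Future (p.1 + s * v.1) v) : Step (proj p) (proj (p + v)) := by
  refine ⟨fun s => p + s • v, ?_, ?_, ?_, ?_⟩
  · exact contDiff_const.add (contDiff_id.smul contDiff_const)
  · simp
  · simp
  · intro s hs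
    have hd : HasDerivAt (fun s : ℝ => p + s • v) v s := by
      have := ((hasDerivAt_id s).smul_const v).const_add p
      simpa using this
    rw [hd.deriv]
    exact h s hs

theorem step_down (t₀ t₁ : ℝ) (h : t₁ < t₀) (θ : AddCircle (1 : ℝ) × AddCircle (1 : ℝ)) :
    Step (t₀, θ) (t₁, θ) := by
  obtain ⟨x, hx⟩ := QuotientAddGroup.mk_surjective θ.1
  obtain ⟨y, hy⟩ := QuotientAddGroup.mk_surjective θ.2
  have h1 := step_line (t₀, x, y) (t₁ - t₀, 0, 0) (by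
    intro s _
    refine ⟨?_, ?_, ?_⟩
    · intro h0
      have := congrArg Prod.fst h0
      simp at this
      linarith
    · rw [G_self]; simp
    · rw [G_T]; simp; linarith)
  have e1 : proj (t₀, x, y) = (t₀, θ) := by
    unfold proj
    exact Prod.ext rfl (Prod.ext hx hy)
  have e2 : proj ((t₀, x, y) + (t₁ - t₀, 0, 0)) = (t₁, θ) := by
    unfold proj
    refine Prod.ext ?_ (Prod.ext ?_ ?_)
    · simp
    · simpa using hx
    · simpa using hy
  rwa [e1, e2] at h1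

/-- Curves which stay on one side of `t = 0`. -/
theorem step_side {t₀ t₁ : ℝ} (h : 0 < t₀ * t₁) (θ₀ θ₁ : AddCircle (1 : ℝ) × AddCircle (1 : ℝ)) :
    Step (t₀, θ₀) (t₁, θ₁) := by
  obtain ⟨x₀, hx₀⟩ := QuotientAddGroup.mk_surjective θ₀.1
  obtain ⟨y₀, hy₀⟩ := QuotientAddGroup.mk_surjective θ₀.2
  obtain ⟨x₁, hx₁⟩ := QuotientAddGroup.mk_surjective θ₁.1
  obtain ⟨y₁, hy₁⟩ := QuotientAddGroup.mk_surjective θ₁.2
  obtain ⟨μ, hμ, hμs⟩ : ∃ μ : ℝ, 0 < μ ∧ ∀ s ∈ Icc (0 : ℝ) 1, μ ≤ (t₀ + s * (t₁ - t₀)) ^ 2 := by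
    refine ⟨min (t₀ ^ 2) (t₁ ^ 2), ?_, ?_⟩
    · apply lt_min
      · have : t₀ ≠ 0 := fun h0 => by rw [h0, zero_mul] at h; exact lt_irrefl _ h
        positivity
      · have : t₁ ≠ 0 := fun h0 => by rw [h0, mul_zero] at h; exact lt_irrefl _ h
        positivity
    · intro s hs
      have e : (t₀ + s * (t₁ - t₀)) ^ 2 = (1 - s) ^ 2 * t₀ ^ 2 + s ^ 2 * t₁ ^ 2 +
          2 * (s * (1 - s)) * (t₀ * t₁) := by ring
      have hs0 := hs.1
      have hs1 : 0 ≤ 1 - s := by linarith [hs.2]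
      rcases le_total |t₀| |t₁| with hle | hle
      · -- `t₀²` is the minimum, `t₀ t₁ ≥ t₀²`
        have h1 : t₀ ^ 2 ≤ t₀ * t₁ := by
          have : |t₀| * |t₀| ≤ |t₀| * |t₁| := mul_le_mul_of_nonneg_left hle (abs_nonneg _)
          rw [abs_mul_abs_self, ← abs_mul, abs_of_pos h] at this
          nlinarith
        have h2 : t₀ ^ 2 ≤ t₁ ^ 2 := sq_le_sq.2 hle
        refine (min_le_left _ _).trans ?_
        rw [e]
        have h3 := mul_nonneg hs0 hs1
        nlinarith [mul_nonneg (sq_nonneg s) (sub_nonneg.2 h2), mul_nonneg h3 (sub_nonneg.2 h1)]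
      · have h1 : t₁ ^ 2 ≤ t₀ * t₁ := by
          have : |t₁| * |t₁| ≤ |t₀| * |t₁| := mul_le_mul_of_nonneg_right hle (abs_nonneg _)
          rw [abs_mul_abs_self, ← abs_mul, abs_of_pos h] at this
          nlinarith
        have h2 : t₁ ^ 2 ≤ t₀ ^ 2 := sq_le_sq.2 hle
        refine (min_le_right _ _).trans ?_
        rw [e]
        have h3 := mul_nonneg hs0 hs1
        nlinarith [mul_nonneg (sq_nonneg (1 - s)) (sub_nonneg.2 h2),
          mul_nonneg h3 (sub_nonneg.2 h1)]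
  -- the large displacement
  obtain ⟨a, ha⟩ : ∃ a, a = t₁ - t₀ := ⟨_, rfl⟩
  rw [← ha] at hμs
  obtain ⟨C, hC⟩ : ∃ C, C = |y₁ - y₀ - √2 * (x₁ - x₀)| + 1 := ⟨_, rfl⟩
  obtain ⟨N, hN⟩ := exists_nat_gt (|x₁ - x₀| + 1 + 2 * |a| + (2 * |a| + C ^ 2) / μ)
  obtain ⟨b, hb⟩ : ∃ b, b = x₁ - x₀ + (N : ℝ) := ⟨_, rfl⟩
  have hbN : 1 + 2 * |a| + (2 * |a| + C ^ 2) / μ < b := by
    have := neg_abs_le (x₁ - x₀)
    linarith
  have hC0 : 0 < C := by rw [hC]; positivity
  have hdiv : 0 ≤ (2 * |a| + C ^ 2) / μ := by positivity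
  have hb1 : 1 < b := by linarith [abs_nonneg a]
  have hba : 2 * |a| < b := by linarith
  have hbμ : 2 * |a| + C ^ 2 < μ * b := by
    have h1 : (2 * |a| + C ^ 2) / μ < b := by linarith [abs_nonneg a]
    rw [div_lt_iff₀ hμ] at h1
    linarith
  obtain ⟨m, hm⟩ : ∃ m, m = ⌊√2 * (N : ℝ)⌋ := ⟨_, rfl⟩
  obtain ⟨c, hc⟩ : ∃ c, c = (y₁ - y₀ + (m : ℝ)) - √2 * b := ⟨_, rfl⟩
  have hcC : |c| ≤ C := by
    have e : c = (y₁ - y₀ - √2 * (x₁ - x₀)) + ((m : ℝ) - √2 * N) := by rw [hc, hb]; ring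
    rw [e]
    refine (abs_add_le _ _).trans ?_
    rw [hC]
    gcongr
    rw [abs_le]
    constructor
    · have := Int.lt_floor_add_one (√2 * (N : ℝ))
      rw [← hm] at this
      linarith
    · have := Int.floor_le (√2 * (N : ℝ))
      rw [← hm] at this
      linarith
  have hc2 : c ^ 2 ≤ C ^ 2 := by
    rw [← sq_abs c]
    exact pow_le_pow_left₀ (abs_nonneg _) hcC 2
  have h1 := step_line (t₀, x₀, y₀) (a, b, y₁ - y₀ + m) (by
    intro s hs
    have hs' := hμs s hs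
    change Future (t₀ + s * a) _
    refine ⟨?_, ?_, ?_⟩
    · intro h0
      have := congrArg (fun v : ℝ × ℝ × ℝ => v.2.1) h0
      simp only [Prod.snd_zero, Prod.fst_zero] at this
      linarith
    · rw [G_self]
      simp only
      rw [← hc]
      have h2 : μ * b ^ 2 ≤ (t₀ + s * a) ^ 2 * b ^ 2 :=
        mul_le_mul_of_nonneg_right hs' (sq_nonneg _)
      have h3 : a * b ≤ |a| * b := mul_le_mul_of_nonneg_right (le_abs_self a) (by linarith)
      have h4 : (2 * |a| + C ^ 2) * b ≤ μ * b * b := mul_le_mul_of_nonneg_right hbμ.le (by linarith)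
      have h5 : C ^ 2 ≤ C ^ 2 * b := by nlinarith [sq_nonneg C]
      nlinarith
    · rw [G_T]
      simp only
      have h3 := le_abs_self a
      have h4 : b ≤ b * ((t₀ + s * a) ^ 2 + 1) := by nlinarith [sq_nonneg (t₀ + s * a)]
      linarith)
  have e1 : proj (t₀, x₀, y₀) = (t₀, θ₀) := by
    unfold proj
    exact Prod.ext rfl (Prod.ext hx₀ hy₀)
  have e2 : proj ((t₀, x₀, y₀) + (a, b, y₁ - y₀ + m)) = (t₁, θ₁) := by
    unfold proj
    refine Prod.ext ?_ (Prod.ext ?_ ?_)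
    · simp [ha]
    · rw [← hx₁]
      change ((x₀ + b : ℝ) : AddCircle (1 : ℝ)) = (x₁ : AddCircle (1 : ℝ))
      have : x₀ + b = x₁ + N := by rw [hb]; ring
      rw [this, AddCircle.coe_add, show ((N : ℝ) : AddCircle (1 : ℝ)) = 0 from
        (AddCircle.coe_eq_zero_iff _).2 ⟨N, by simp⟩, add_zero]
    · rw [← hy₁]
      change ((y₀ + (y₁ - y₀ + m) : ℝ) : AddCircle (1 : ℝ)) = (y₁ : AddCircle (1 : ℝ))
      have : y₀ + (y₁ - y₀ + m) = y₁ + m := by ring
      rw [this, AddCircle.coe_add, show ((m : ℝ) : AddCircle (1 : ℝ)) = 0 from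
        (AddCircle.coe_eq_zero_iff _).2 ⟨m, by simp⟩, add_zero]
  rwa [e1, e2] at h1

/-- Curves along the null leaves. -/
theorem step_leaf (x y δ : ℝ) (hδ : 0 < δ) :
    Step (0, (x : AddCircle (1 : ℝ)), (y : AddCircle (1 : ℝ)))
      (0, ((x + δ : ℝ) : AddCircle (1 : ℝ)), ((y + √2 * δ : ℝ) : AddCircle (1 : ℝ))) := by
  have h1 := step_line (0, x, y) (0, δ, √2 * δ) (by
    intro s _
    refine ⟨?_, ?_, ?_⟩
    · intro h0
      have := congrArg (fun v : ℝ × ℝ × ℝ => v.2.1) h0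
      simp only [Prod.snd_zero, Prod.fst_zero] at this
      linarith
    · rw [G_self]; simp
    · rw [G_T]; simp; linarith)
  have e2 : ((0, x, y) : ℝ × ℝ × ℝ) + (0, δ, √2 * δ) = (0, x + δ, y + √2 * δ) := by
    ext <;> simp
  rw [e2] at h1
  exact h1

theorem after_pos {p : M} (hp : 0 < p.1) (q : M) : After p q := by
  rcases lt_or_ge 0 q.1 with hq | hq
  · exact Relation.TransGen.single (step_side (mul_pos hp hq) p.2 q.2)
  · have h1 : Step p (p.1, q.2) := step_side (mul_pos hp hp) p.2 q.2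
    have h2 : Step (p.1, q.2) q := step_down p.1 q.1 (by linarith) q.2
    exact Relation.TransGen.tail (Relation.TransGen.single h1) h2

theorem after_neg {p q : M} (hp : p.1 ≤ 0) (hq : q.1 < 0) : After p q := by
  have h1 : Step p (p.1 - 1, p.2) := step_down p.1 (p.1 - 1) (by linarith) p.2
  have h2 : Step (p.1 - 1, p.2) q := step_side (mul_pos_of_neg_of_neg (by linarith) hq) p.2 q.2
  exact Relation.TransGen.tail (Relation.TransGen.single h1) h2

/-! ### Restrictions on causal curves -/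

theorem step_inv {p q : M} (h : Step p q) : (p.1 < 0 → q.1 < 0) ∧ (p.1 ≤ 0 → q.1 ≤ 0) ∧
    (p.1 = 0 → q.1 = 0 → ∃ δ : ℝ, 0 < δ ∧ q.2.1 = p.2.1 + (δ : AddCircle (1 : ℝ)) ∧
      q.2.2 = p.2.2 + ((√2 * δ : ℝ) : AddCircle (1 : ℝ))) := by
  obtain ⟨γ, hγ, rfl, rfl, hf⟩ := h
  have hγd : ∀ s, HasDerivAt γ (deriv γ s) s := fun s =>
    (hγ.differentiable (by simp) s).hasDerivAt
  have hγc : Continuous (deriv γ) := hγ.continuous_deriv (by simp)
  have hτ : ∀ s, HasDerivAt (fun s => (γ s).1) (deriv γ s).1 s := fun s =>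
    (ContinuousLinearMap.fst ℝ ℝ (ℝ × ℝ)).hasFDerivAt.comp_hasDerivAt s (hγd s)
  have hr : ∀ s, HasDerivAt (fun s => (γ s).2) (deriv γ s).2 s := fun s =>
    (ContinuousLinearMap.snd ℝ ℝ (ℝ × ℝ)).hasFDerivAt.comp_hasDerivAt s (hγd s)
  have hξ : ∀ s, HasDerivAt (fun s => (γ s).2.1) (deriv γ s).2.1 s := fun s =>
    (ContinuousLinearMap.fst ℝ ℝ ℝ).hasFDerivAt.comp_hasDerivAt s (hr s)
  have hυ : ∀ s, HasDerivAt (fun s => (γ s).2.2) (deriv γ s).2.2 s := fun s =>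
    (ContinuousLinearMap.snd ℝ ℝ ℝ).hasFDerivAt.comp_hasDerivAt s (hr s)
  have hkc : Continuous (fun s => (γ s).1 * (deriv γ s).2.1 / 2) := by
    have := hγ.continuous
    fun_prop
  set κ : ℝ → ℝ := fun s => ∫ r in (0:ℝ)..s, (γ r).1 * (deriv γ r).2.1 / 2 with hκ
  have hκd : ∀ s, HasDerivAt κ ((γ s).1 * (deriv γ s).2.1 / 2) s := fun s =>
    intervalIntegral.integral_hasDerivAt_right (hkc.intervalIntegrable _ _)
      (hkc.stronglyMeasurableAtFilter _ _) hkc.continuousAt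
  set F : ℝ → ℝ := fun s => (γ s).1 * Real.exp (-κ s) with hF
  have hFd : ∀ s, HasDerivAt F (((deriv γ s).1 - (γ s).1 ^ 2 * (deriv γ s).2.1 / 2) *
      Real.exp (-κ s)) s := by
    intro s
    have hneg : HasDerivAt (fun s => -κ s) (-((γ s).1 * (deriv γ s).2.1 / 2)) s := (hκd s).neg
    have := (hτ s).mul hneg.exp
    refine this.congr_deriv ?_
    ring
  have hanti : AntitoneOn F (Icc 0 1) := by
    apply antitoneOn_of_deriv_nonpos (convex_Icc 0 1)
    · exact fun s _ => (hFd s).continuousAt.continuousWithinAt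
    · exact fun s _ => (hFd s).differentiableAt.differentiableWithinAt
    · intro s hs
      rw [interior_Icc] at hs
      rw [(hFd s).deriv]
      have h1 := future_le (hf s ⟨hs.1.le, hs.2.le⟩)
      exact mul_nonpos_of_nonpos_of_nonneg (by linarith) (Real.exp_pos _).le
  have h0 : (0:ℝ) ∈ Icc (0:ℝ) 1 := ⟨le_rfl, zero_le_one⟩
  have h1 : (1:ℝ) ∈ Icc (0:ℝ) 1 := ⟨zero_le_one, le_rfl⟩
  have h01 : F 1 ≤ F 0 := hanti h0 h1 zero_le_one
  change ((γ 0).1 < 0 → (γ 1).1 < 0) ∧ ((γ 0).1 ≤ 0 → (γ 1).1 ≤ 0) ∧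
    ((γ 0).1 = 0 → (γ 1).1 = 0 → _)
  refine ⟨fun h => ?_, fun h => ?_, fun h h' => ?_⟩
  · have h2 : F 0 < 0 := mul_neg_of_neg_of_pos h (Real.exp_pos _)
    have h3 : F 1 < 0 := lt_of_le_of_lt h01 h2
    by_contra hcon
    have : 0 ≤ F 1 := mul_nonneg (not_lt.1 hcon) (Real.exp_pos _).le
    linarith
  · have h2 : F 0 ≤ 0 := mul_nonpos_of_nonpos_of_nonneg h (Real.exp_pos _).le
    by_contra hcon
    have : 0 < F 1 := mul_pos (not_le.1 hcon) (Real.exp_pos _)
    linarith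
  · have hF0 : F 0 = 0 := by simp only [hF, h, zero_mul]
    have hF1 : F 1 = 0 := by simp only [hF, h', zero_mul]
    have hz : ∀ s ∈ Icc (0:ℝ) 1, (γ s).1 = 0 := by
      intro s hs
      have h2 : F s ≤ F 0 := hanti h0 hs hs.1
      have h3 : F 1 ≤ F s := hanti hs h1 hs.2
      have h4 : F s = 0 := by linarith
      exact (mul_eq_zero.1 h4).resolve_right (Real.exp_pos _).ne'
    have hz' : ∀ s ∈ Ioo (0:ℝ) 1, (deriv γ s).1 = 0 := by
      intro s hs
      have h2 : HasDerivAt (fun s => (γ s).1) 0 s := by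
        apply (hasDerivAt_const s (0:ℝ)).congr_of_eventuallyEq
        filter_upwards [Ioo_mem_nhds hs.1 hs.2] with r hr'
        exact hz r ⟨hr'.1.le, hr'.2.le⟩
      exact (hτ s).unique h2
    have hfz : ∀ s ∈ Ioo (0:ℝ) 1, 0 < (deriv γ s).2.1 ∧ (deriv γ s).2.2 = √2 * (deriv γ s).2.1 := by
      intro s hs
      have h2 := hf s ⟨hs.1.le, hs.2.le⟩
      rw [hz s ⟨hs.1.le, hs.2.le⟩] at h2
      exact future_zero h2 (hz' s hs)
    obtain ⟨s, hs, hs'⟩ := exists_hasDerivAt_eq_slope (fun s => (γ s).2.1)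
      (fun s => (deriv γ s).2.1) zero_lt_one (fun s _ => (hξ s).continuousAt.continuousWithinAt)
      (fun s _ => hξ s)
    obtain ⟨r, hr1, hr2⟩ := exists_hasDerivAt_eq_slope (fun s => (γ s).2.2 - √2 * (γ s).2.1)
      (fun s => (deriv γ s).2.2 - √2 * (deriv γ s).2.1) zero_lt_one
      (fun s _ => ((hυ s).sub ((hξ s).const_mul √2)).continuousAt.continuousWithinAt)
      (fun s _ => (hυ s).sub ((hξ s).const_mul √2))
    have h2 := (hfz s hs).1
    have h3 := (hfz r hr1).2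
    simp only [sub_zero, div_one] at hs' hr2
    rw [h3, sub_self] at hr2
    refine ⟨(γ 1).2.1 - (γ 0).2.1, by linarith, ?_, ?_⟩
    · change (((γ 1).2.1 : ℝ) : AddCircle (1:ℝ)) = _
      have e : (γ 1).2.1 = (γ 0).2.1 + ((γ 1).2.1 - (γ 0).2.1) := by ring
      conv_lhs => rw [e]
      rw [AddCircle.coe_add]
      rfl
    · change (((γ 1).2.2 : ℝ) : AddCircle (1:ℝ)) = _
      have e : (γ 1).2.2 = (γ 0).2.2 + √2 * ((γ 1).2.1 - (γ 0).2.1) := by linarith
      conv_lhs => rw [e]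
      rw [AddCircle.coe_add]
      rfl

theorem after_inv {p q : M} (hp : p.1 = 0) (h : After p q) : q.1 < 0 ∨ (q.1 = 0 ∧
    ∃ δ : ℝ, 0 < δ ∧ q.2.1 = p.2.1 + (δ : AddCircle (1 : ℝ)) ∧
      q.2.2 = p.2.2 + ((√2 * δ : ℝ) : AddCircle (1 : ℝ))) := by
  induction h with
  | single hs =>
    obtain ⟨-, h2, h3⟩ := step_inv hs
    rcases (h2 hp.le).lt_or_eq with h4 | h4
    · exact Or.inl h4
    · exact Or.inr ⟨h4, h3 hp h4⟩
  | tail _ hs ih =>
    obtain ⟨h1, h2, h3⟩ := step_inv hs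
    rcases ih with h4 | ⟨h4, δ, hδ, hx, hy⟩
    · exact Or.inl (h1 h4)
    · rcases (h2 h4.le).lt_or_eq with h5 | h5
      · exact Or.inl h5
      · obtain ⟨δ', hδ', hx', hy'⟩ := h3 h4 h5
        refine Or.inr ⟨h5, δ + δ', by linarith, ?_, ?_⟩
        · rw [hx', hx, AddCircle.coe_add, add_assoc]
        · rw [hy', hy, mul_add, AddCircle.coe_add, add_assoc]

theorem after_le {p q : M} (h : After p q) : (p.1 < 0 → q.1 < 0) ∧ (p.1 ≤ 0 → q.1 ≤ 0) := by
  induction h with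
  | single hs =>
    obtain ⟨h1, h2, -⟩ := step_inv hs
    exact ⟨h1, h2⟩
  | tail _ hs ih =>
    obtain ⟨h1, h2, -⟩ := step_inv hs
    exact ⟨fun h => h1 (ih.1 h), fun h => h2 (ih.2 h)⟩

/-- Points with `t = 0` lie on no closed causal curve. -/
theorem cntv {p : M} (hp : p.1 = 0) : ¬ After p p := by
  intro h
  rcases after_inv hp h with h1 | ⟨-, δ, hδ, hx, hy⟩
  · linarith
  · have hx' : (δ : AddCircle (1:ℝ)) = 0 := by simpa using hx.symm
    have hy' : ((√2 * δ : ℝ) : AddCircle (1:ℝ)) = 0 := by simpa using hy.symm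
    rw [AddCircle.coe_eq_zero_iff] at hx' hy'
    obtain ⟨m, hm⟩ := hx'
    obtain ⟨n, hn⟩ := hy'
    simp only [zsmul_eq_mul, mul_one] at hm hn
    have hm0 : m ≠ 0 := by
      rintro rfl
      simp at hm
      linarith
    have hirr := irrational_sqrt_two
    apply (hirr.mul_intCast hm0)
    exact ⟨n, by rw [hm]; exact_mod_cast hn⟩

/-- The after-2 formula is valid. -/
theorem valid : AfterTwoValid After := by
  rintro p₁ p₂ q x ⟨⟨y₁, hy₁, h1, h1', h1''⟩, ⟨y₂, hy₂, h2, h2', h2''⟩, ⟨z, hz, hq⟩⟩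
  rcases lt_or_ge 0 x.1 with hx | hx
  · exact Or.inl ⟨x, after_pos hx x, ⟨y₁, hy₁, h1⟩, ⟨z, hz, hq⟩⟩
  · exfalso
    have n12 : ¬ After y₁ y₂ := fun h => h1'' ⟨y₂, h, not_not.2 h2⟩
    have n21 : ¬ After y₂ y₁ := fun h => h2'' ⟨y₁, h, not_not.2 h1⟩
    have l1 := (after_le hy₁).2 hx
    have l2 := (after_le hy₂).2 hx
    have e1 : y₁.1 = 0 := by
      rcases l1.lt_or_eq with h | h
      · exact absurd (after_neg l2 h) n21
      · exact h
    have e2 : y₂.1 = 0 := by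
      rcases l2.lt_or_eq with h | h
      · exact absurd (after_neg l1 h) n12
      · exact h
    have ex : x.1 = 0 := by
      rcases hx.lt_or_eq with h | h
      · have := (after_le hy₁).1 h
        linarith
      · exact h
    obtain ⟨x0, hx0⟩ := QuotientAddGroup.mk_surjective x.2.1
    obtain ⟨x1, hx1⟩ := QuotientAddGroup.mk_surjective x.2.2
    have key : ∀ {y y' : M}, y.1 = 0 → y'.1 = 0 → ∀ {δ δ' : ℝ}, δ < δ' →
        y.2.1 = x.2.1 + (δ : AddCircle (1 : ℝ)) →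
        y.2.2 = x.2.2 + ((√2 * δ : ℝ) : AddCircle (1 : ℝ)) →
        y'.2.1 = x.2.1 + (δ' : AddCircle (1 : ℝ)) →
        y'.2.2 = x.2.2 + ((√2 * δ' : ℝ) : AddCircle (1 : ℝ)) → After y y' := by
      intro y y' hy hy' δ δ' hlt a1 a2 b1 b2
      have h := step_leaf (x0 + δ) (x1 + √2 * δ) (δ' - δ) (by linarith)
      have ey : y = (0, ((x0 + δ : ℝ) : AddCircle (1:ℝ)),
          ((x1 + √2 * δ : ℝ) : AddCircle (1:ℝ))) := by
        refine Prod.ext hy (Prod.ext ?_ ?_)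
        · rw [a1, AddCircle.coe_add]; exact congrArg (· + _) hx0.symm
        · rw [a2, AddCircle.coe_add]; exact congrArg (· + _) hx1.symm
      have ey' : y' = (0, ((x0 + δ + (δ' - δ) : ℝ) : AddCircle (1:ℝ)),
          ((x1 + √2 * δ + √2 * (δ' - δ) : ℝ) : AddCircle (1:ℝ))) := by
        have e1 : x0 + δ + (δ' - δ) = x0 + δ' := by ring
        have e2 : x1 + √2 * δ + √2 * (δ' - δ) = x1 + √2 * δ' := by ring
        rw [e1, e2]
        refine Prod.ext hy' (Prod.ext ?_ ?_)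
        · rw [b1, AddCircle.coe_add]; exact congrArg (· + _) hx0.symm
        · rw [b2, AddCircle.coe_add]; exact congrArg (· + _) hx1.symm
      rw [ey, ey']
      exact Relation.TransGen.single h
    rcases after_inv ex hy₁ with h | ⟨-, δ₁, -, a1, a2⟩
    · linarith
    rcases after_inv ex hy₂ with h | ⟨-, δ₂, -, b1, b2⟩
    · linarith
    rcases lt_trichotomy δ₁ δ₂ with h | h | h
    · exact n12 (key e1 e2 h a1 a2 b1 b2)
    · have : y₁ = y₂ := by
        refine Prod.ext (e1.trans e2.symm) (Prod.ext ?_ ?_)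
        · rw [a1, b1, h]
        · rw [a2, b2, h]
      exact h1' (this ▸ h2)
    · exact n21 (key e2 e1 h b1 b2 a1 a2)

end Pool.Agent.Q170.After2
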